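import Mathlib

set_option autoImplicit false

namespace Pool.Agent.Helper29.LG

/-- The long range: `T < (8 B / s) ^ (m / 2)` for some `m ≥ 2` which is admissible for forms of
degree `s` on a threefold in projective space of dimension `r + 3`. -/
def LongRange (r s B T : ℕ) : Prop :=
  ∃ m : ℕ, 2 ≤ m ∧ m < s ∧
    (∀ j : ℕ, 0 < j → j < m → 2 * (r + 3) * ((m - j) * (j + 1)) ≤ (m + 2) * (s + 1 - 2 * j)) ∧
    s ^ m * T ^ 2 < (8 * B) ^ m

end Pool.Agent.Helper29.LG
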