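import Pool.Agent.Helper28.TL.AbsL

set_option autoImplicit false

namespace Pool.Agent.Helper29.LG

open Finset
open Pool.Agent.Helper28.TL (xl Mom bad_levelL exceedL PS le_PS level_pos mean_one level_one_aux)
open Pool.Agent.Helper28.TC (bx PR RM AA AA_nonneg sum_inv_sq sum_inv_sqrt)

section Data

variable {J : Type}

/-- The terms `tt`, their main parts `VT`, the squares `YT` of the main parts and the numbers `BT`
of bad primes. -/
structure Dat (tt VT YT BT : ℕ → (J → ℤ) → ℝ) (c0 c1 : ℝ) : Prop where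
  hc0 : 0 ≤ c0
  hc1 : 0 ≤ c1
  hY : ∀ p a, 0 ≤ YT p a
  hB : ∀ p a, 0 ≤ BT p a
  sub : ∀ p, p.Prime → ∀ a, |tt p a - VT p a| ≤
    c0 / Real.sqrt p + (c1 * BT p a + Real.sqrt (BT p a) * Real.sqrt (YT p a))

variable {tt VT YT BT : ℕ → (J → ℤ) → ℝ} {c0 c1 : ℝ} (Dt : Dat tt VT YT BT c0 c1)

include Dt in
lemma sum_dat (T : ℕ) (a : J → ℤ) :
    |∑ p ∈ PR T, Real.log p * tt p a| ≤ |∑ p ∈ PR T, Real.log p * VT p a| +
      (c0 * (Real.log T * (2 * Real.sqrt T)) + (c1 * ∑ p ∈ PR T, Real.log p * BT p a +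
          Real.sqrt (∑ p ∈ PR T, Real.log p * BT p a) *
            Real.sqrt (∑ p ∈ PR T, Real.log p * YT p a))) := by
  have hPR : ∀ p ∈ PR T, p.Prime := fun p hp => (Finset.mem_filter.1 hp).2
  have hPT : ∀ p ∈ PR T, p ≤ T := fun p hp => (Finset.mem_Icc.1 (Finset.mem_filter.1 hp).1).2
  have hlog : ∀ p ∈ PR T, 0 ≤ Real.log p := fun p hp =>
    Real.log_nonneg (by exact_mod_cast (hPR p hp).one_le)
  have e1 : ∑ p ∈ PR T, Real.log p * tt p a = ∑ p ∈ PR T, Real.log p * VT p a +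
      ∑ p ∈ PR T, Real.log p * (tt p a - VT p a) := by
    rw [← Finset.sum_add_distrib]
    exact Finset.sum_congr rfl fun p _ => by ring
  rw [e1]
  refine (abs_add_le _ _).trans (add_le_add le_rfl ?_)
  refine (Finset.abs_sum_le_sum_abs _ _).trans ?_
  have h1 : ∀ p ∈ PR T, |Real.log p * (tt p a - VT p a)| ≤
      c0 * Real.log T * (1 / Real.sqrt p) + (c1 * (Real.log p * BT p a) +
        Real.sqrt (Real.log p * BT p a) * Real.sqrt (Real.log p * YT p a)) := by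
    intro p hp
    rw [abs_mul, abs_of_nonneg (hlog p hp)]
    refine (mul_le_mul_of_nonneg_left (Dt.sub p (hPR p hp) a) (hlog p hp)).trans ?_
    rw [Real.sqrt_mul (hlog p hp), Real.sqrt_mul (hlog p hp)]
    have h2 : Real.sqrt (Real.log p) * Real.sqrt (BT p a) *
        (Real.sqrt (Real.log p) * Real.sqrt (YT p a)) =
        (Real.sqrt (Real.log p) * Real.sqrt (Real.log p)) *
          (Real.sqrt (BT p a) * Real.sqrt (YT p a)) := by ring
    rw [h2, Real.mul_self_sqrt (hlog p hp)]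
    have h3 : Real.log p ≤ Real.log T :=
      Real.log_le_log (by exact_mod_cast (hPR p hp).pos) (by exact_mod_cast hPT p hp)
    have h4 : Real.log p * (c0 / Real.sqrt p) ≤ c0 * Real.log T * (1 / Real.sqrt p) := by
      have h5 : 0 ≤ c0 / Real.sqrt p := div_nonneg Dt.hc0 (Real.sqrt_nonneg _)
      refine (mul_le_mul_of_nonneg_right h3 h5).trans (le_of_eq ?_)
      ring
    linarith
  refine (Finset.sum_le_sum h1).trans ?_
  rw [Finset.sum_add_distrib, Finset.sum_add_distrib, ← Finset.mul_sum, ← Finset.mul_sum]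
  have h3 : ∑ p ∈ PR T, Real.sqrt (Real.log p * BT p a) * Real.sqrt (Real.log p * YT p a) ≤
      Real.sqrt (∑ p ∈ PR T, Real.log p * BT p a) *
        Real.sqrt (∑ p ∈ PR T, Real.log p * YT p a) := by
    refine (Real.sum_mul_le_sqrt_mul_sqrt _ _ _).trans (le_of_eq ?_)
    congr 2
    · refine Finset.sum_congr rfl fun p hp => ?_
      rw [Real.sq_sqrt (mul_nonneg (hlog p hp) (Dt.hB p a))]
    · refine Finset.sum_congr rfl fun p hp => ?_
      rw [Real.sq_sqrt (mul_nonneg (hlog p hp) (Dt.hY p a))]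
  have h4 : ∑ p ∈ PR T, 1 / Real.sqrt (p : ℝ) ≤ 2 * Real.sqrt T := by
    refine le_trans ?_ (sum_inv_sqrt T)
    exact Finset.sum_le_sum_of_subset_of_nonneg (Finset.filter_subset _ _)
      fun p _ _ => by positivity
  have h5 : 0 ≤ c0 * Real.log T := by
    rcases Nat.eq_zero_or_pos T with h6 | h6
    · rw [h6]; simp
    · exact mul_nonneg Dt.hc0 (Real.log_nonneg (by exact_mod_cast h6))
  have h6 := mul_le_mul_of_nonneg_left h4 h5
  have e2 : c0 * Real.log T * (2 * Real.sqrt T) = c0 * (Real.log T * (2 * Real.sqrt T)) := by ring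
  rw [e2] at h6
  linarith

/-- The numerical inequality. -/
lemma final_num {V Bd Y c s t L lB : ℝ} (hc0 : 0 ≤ c0) (hc1 : 0 ≤ c1) (hs : 1 ≤ s)
    (ht : t = s ^ 2) (hL : 0 ≤ L) (hc : 0 ≤ c) (hV : V ≤ 1 / 4 * (s * L ^ 3))
    (hB0 : 0 ≤ Bd) (hB : Bd ≤ c * lB) (hlB : lB ≤ 2 * L)
    (hY : Y ≤ t * L ^ 3) (hcL : 32 * c + 8 * c0 + 8 * (c1 * c) ≤ L ^ 2) :
    V + (c0 * (L * (2 * s)) + (c1 * Bd + Real.sqrt Bd * Real.sqrt Y)) ≤ s * L ^ 3 := by
  have hsL : 0 ≤ s * L ^ 3 := by positivity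
  have hsL1 : 0 ≤ s * L := by positivity
  have hc1c : 0 ≤ c1 * c := mul_nonneg hc1 hc
  have h1 : c0 * (L * (2 * s)) ≤ 1 / 4 * (s * L ^ 3) := by
    have h2 : 8 * c0 ≤ L ^ 2 := by linarith
    have h3 := mul_le_mul_of_nonneg_right h2 hsL1
    nlinarith
  have h2 : Bd ≤ 2 * c * L := by
    refine hB.trans ?_
    calc c * lB ≤ c * (2 * L) := mul_le_mul_of_nonneg_left hlB hc
      _ = _ := by ring
  have hL3 : 0 ≤ L ^ 3 := by positivity
  have h3 : c1 * Bd ≤ 1 / 4 * (s * L ^ 3) := by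
    have h4 : c1 * Bd ≤ c1 * (2 * c * L) := mul_le_mul_of_nonneg_left h2 hc1
    have h5 : 8 * (c1 * c) ≤ L ^ 2 := by linarith
    have h6 := mul_le_mul_of_nonneg_right h5 hL
    have h7 : L ^ 3 ≤ s * L ^ 3 := by nlinarith
    nlinarith
  have h5 : Real.sqrt Bd * Real.sqrt Y ≤ 1 / 4 * (s * L ^ 3) := by
    rw [← Real.sqrt_mul hB0]
    apply Real.sqrt_le_iff.2
    refine ⟨by positivity, ?_⟩
    rcases le_total Y 0 with hY0 | hY0
    · have : Bd * Y ≤ 0 := mul_nonpos_of_nonneg_of_nonpos hB0 hY0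
      have h6 : 0 ≤ (1 / 4 * (s * L ^ 3)) ^ 2 := sq_nonneg _
      linarith
    · have h6 : 2 * c * L ≤ 1 / 16 * L ^ 3 := by
        have h7 : 32 * c ≤ L ^ 2 := by linarith
        have h8 := mul_le_mul_of_nonneg_right h7 hL
        nlinarith
      calc Bd * Y ≤ (1 / 16 * L ^ 3) * (t * L ^ 3) :=
            mul_le_mul (h2.trans h6) hY hY0 (by positivity)
        _ = _ := by rw [ht]; ring
  linarith

end Data

section Level

variable {J : Type} [Fintype J] [DecidableEq J] (VT YT : ℕ → (J → ℤ) → ℝ)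

open Classical in
/-- The bad vectors of a level. -/
noncomputable def LV (B K j : ℕ) : Finset (J → ℤ) :=
  ((bx J B).filter fun a =>
    (1 / 4 : ℝ) ^ 2 * ((2 : ℝ) ^ j * ((j : ℝ) * Real.log 2) ^ 6) < RM (xl VT K a) (j + 1) 0) ∪
  ((bx J B).filter fun a => 1 * (2 ^ j * ((j : ℝ) * Real.log 2) ^ 3) < PS YT K j a)

/-- The constant for a level. -/
noncomputable def cA (C D m : ℝ) : ℝ :=
  (D + 4 * C ^ 2) / (1 / 4) ^ 2 * (72 / Real.log 2 ^ 6) + m / 1 * (6 / Real.log 2 ^ 3)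

lemma cA_nonneg {C D m : ℝ} (hD : 0 ≤ D) (hm : 0 ≤ m) : 0 ≤ cA C D m := by
  unfold cA
  have hl : 0 < Real.log 2 := Real.log_pos (by norm_num)
  positivity

variable {VT YT} {K B : ℕ} {C D m : ℝ} (F : Mom VT K B C D) (hY : ∀ p a, 0 ≤ YT p a)
  (hm0 : 0 ≤ m)
  (hm : ∀ p, p.Prime → p ≤ K → ∑ a ∈ bx J B, YT p a ≤ AA J B * m)

include F hY hm0 hm in
lemma card_LV {j : ℕ} (hj : 1 ≤ j) :
    ((LV VT YT B K j).card : ℝ) ≤ AA J B * cA C D m * (1 / (j : ℝ) ^ 2) := by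
  classical
  have hl : 0 < Real.log 2 := Real.log_pos (by norm_num)
  have hj0 : (0 : ℝ) < j := by exact_mod_cast hj
  have hAA := AA_nonneg J B
  have h1 := bad_levelL F (by norm_num : (0 : ℝ) < (1 / 4) ^ 2) hj
  have h2 : (((bx J B).filter fun a =>
      1 * (2 ^ j * ((j : ℝ) * Real.log 2) ^ 3) < PS YT K j a).card : ℝ) ≤
      AA J B * m / 1 * (6 / Real.log 2 ^ 3) * (1 / (j : ℝ) ^ 2) := by
    have hθ : 0 < 1 * (2 ^ j * ((j : ℝ) * Real.log 2) ^ 3) := by positivity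
    have h3 := level_pos (y := YT) hY hθ (mean_one (j := j) hm0 hm)
    exact h3.trans (level_one_aux hAA hm0 one_pos hl hj)
  have h4 : ((LV VT YT B K j).card : ℝ) ≤
      (((bx J B).filter fun a => (1 / 4 : ℝ) ^ 2 * ((2 : ℝ) ^ j * ((j : ℝ) * Real.log 2) ^ 6) <
        RM (xl VT K a) (j + 1) 0).card : ℝ) +
      (((bx J B).filter fun a =>
        1 * (2 ^ j * ((j : ℝ) * Real.log 2) ^ 3) < PS YT K j a).card : ℝ) := by
    unfold LV
    exact_mod_cast Finset.card_union_le _ _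
  refine h4.trans ((add_le_add h1 h2).trans (le_of_eq ?_))
  unfold cA
  ring

variable {tt BT : ℕ → (J → ℤ) → ℝ} {c0 c1 : ℝ} (Dt : Dat tt VT YT BT c0 c1)

include Dt in
/-- The inequality outside of the bad levels. -/
lemma good_of {T : ℕ} {cb : ℝ} (hcb : 0 ≤ cb) (hT : 2 ≤ T) (hTK : T ≤ K)
    {a : J → ℤ} (ha : a ∈ bx J B) (hlv : a ∉ LV VT YT B K (Nat.log 2 T))
    (hbad : ∑ p ∈ PR T, Real.log p * BT p a ≤ cb * Real.log B)
    (hBT : B < T ^ 2) (hB : 1 ≤ B)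
    (hL : 4 * (32 * cb + 8 * c0 + 8 * (c1 * cb)) ≤ Real.log B ^ 2) :
    |∑ p ∈ PR T, Real.log p * tt p a| ≤ Real.sqrt T * Real.log T ^ 3 := by
  classical
  have hT0 : (0 : ℝ) < T := by exact_mod_cast (by omega : 0 < T)
  have hT1 : (1 : ℝ) ≤ T := by exact_mod_cast (by omega : 1 ≤ T)
  have hB0 : (0 : ℝ) < B := by exact_mod_cast hB
  have hB1 : (1 : ℝ) ≤ B := by exact_mod_cast hB
  have hlT : 0 ≤ Real.log T := Real.log_nonneg hT1
  have hlB : 0 ≤ Real.log B := Real.log_nonneg hB1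
  have hl2 : 0 < Real.log 2 := Real.log_pos (by norm_num)
  have hs1 : 1 ≤ Real.sqrt T := Real.one_le_sqrt.2 hT1
  have hs2 : (T : ℝ) = Real.sqrt T ^ 2 := (Real.sq_sqrt hT0.le).symm
  unfold LV at hlv
  rw [Finset.mem_union, not_or] at hlv
  obtain ⟨hv1, hv3⟩ := hlv
  obtain ⟨j, hj⟩ : ∃ j, j = Nat.log 2 T := ⟨_, rfl⟩
  rw [← hj] at hv1 hv3
  have h2j : (2 : ℝ) ^ j ≤ T := by
    rw [hj]
    exact_mod_cast Nat.pow_log_le_self 2 (by omega)
  have hjl : ((j : ℕ) : ℝ) * Real.log 2 ≤ Real.log T := by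
    rw [← Real.log_pow]
    exact Real.log_le_log (by positivity) h2j
  have hjl0 : (0 : ℝ) ≤ (j : ℝ) * Real.log 2 := by positivity
  have hjl3 : ((j : ℝ) * Real.log 2) ^ 3 ≤ Real.log T ^ 3 := pow_le_pow_left₀ hjl0 hjl 3
  have hV : |∑ p ∈ PR T, Real.log p * VT p a| ≤ 1 / 4 * (Real.sqrt T * Real.log T ^ 3) := by
    by_contra hcon
    push Not at hcon
    apply hv1
    refine Finset.mem_filter.2 ⟨ha, ?_⟩
    rw [hj]
    exact exceedL (by norm_num) hT hTK hcon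
  have hY : ∑ p ∈ PR T, Real.log p * YT p a ≤ T * Real.log T ^ 3 := by
    have h1 : PS YT K j a ≤ 1 * (2 ^ j * ((j : ℝ) * Real.log 2) ^ 3) := by
      by_contra hcon
      push Not at hcon
      apply hv3
      exact Finset.mem_filter.2 ⟨ha, hcon⟩
    have h2 := le_PS (y := YT) Dt.hY hTK a
    rw [← hj] at h2
    refine h2.trans (h1.trans ?_)
    rw [one_mul]
    exact mul_le_mul h2j hjl3 (by positivity) hT0.le
  have hBd0 : 0 ≤ ∑ p ∈ PR T, Real.log p * BT p a := by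
    apply Finset.sum_nonneg
    intro p hp
    have hpp : p.Prime := (Finset.mem_filter.1 hp).2
    exact mul_nonneg (Real.log_nonneg (by exact_mod_cast hpp.one_le)) (Dt.hB p a)
  have hlB2 : Real.log B ≤ 2 * Real.log T := by
    have h1 : (B : ℝ) ≤ (T : ℝ) ^ 2 := by exact_mod_cast hBT.le
    have h2 := Real.log_le_log hB0 h1
    rw [Real.log_pow] at h2
    push_cast at h2
    exact h2
  have hcL : 32 * cb + 8 * c0 + 8 * (c1 * cb) ≤ Real.log T ^ 2 := by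
    have h1 : Real.log B ^ 2 ≤ (2 * Real.log T) ^ 2 := pow_le_pow_left₀ hlB hlB2 2
    nlinarith
  exact (sum_dat Dt T a).trans (final_num Dt.hc0 Dt.hc1 hs1 hs2 hlT hcb hV hBd0 hbad hlB2 hY hcL)

include F hm0 hm Dt in
open Classical in
/-- The long range. -/
theorem longA {cb : ℝ} (hcb : 0 ≤ cb) (Z : Finset (J → ℤ))
    (hbad : ∀ a ∈ bx J B, a ∉ Z → ∀ T : ℕ,
      ∑ p ∈ PR T, Real.log p * BT p a ≤ cb * Real.log B) (hB : 1 ≤ B)
    (hL : 4 * (32 * cb + 8 * c0 + 8 * (c1 * cb)) ≤ Real.log B ^ 2) {T₀ : ℕ} (hT₀ : 2 ≤ T₀) :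
    (((bx J B).filter fun a => ∃ T : ℕ, T₀ ≤ T ∧ T ≤ K ∧ B < T ^ 2 ∧
      Real.sqrt T * Real.log T ^ 3 < |∑ p ∈ PR T, Real.log p * tt p a|).card : ℝ) ≤
      Z.card + 8 ^ Fintype.card J * cA C D m * 4 / Real.log T₀ * (bx J B).card := by
  have hT0 : (2 : ℝ) ≤ T₀ := by exact_mod_cast hT₀
  have hlT : 0 < Real.log T₀ := Real.log_pos (by linarith)
  obtain ⟨j0, hj0⟩ : ∃ j0, j0 = Nat.log 2 T₀ := ⟨_, rfl⟩
  have hj1 : 1 ≤ j0 := by
    rw [hj0]; exact Nat.log_pos (by norm_num) hT₀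
  have hsub : ((bx J B).filter fun a => ∃ T : ℕ, T₀ ≤ T ∧ T ≤ K ∧ B < T ^ 2 ∧
      Real.sqrt T * Real.log T ^ 3 < |∑ p ∈ PR T, Real.log p * tt p a|) ⊆
      Z ∪ (Icc j0 (Nat.log 2 K)).biUnion fun j => LV VT YT B K j := by
    intro a ha
    obtain ⟨ha1, T, h1, h2, h3, h4⟩ := Finset.mem_filter.1 ha
    rw [Finset.mem_union]
    by_contra hcon
    rw [not_or] at hcon
    obtain ⟨hc1, hc2⟩ := hcon
    have hlv : a ∉ LV VT YT B K (Nat.log 2 T) := by
      intro h5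
      apply hc2
      rw [Finset.mem_biUnion]
      refine ⟨Nat.log 2 T, ?_, h5⟩
      rw [Finset.mem_Icc, hj0]
      exact ⟨Nat.log_mono_right h1, Nat.log_mono_right h2⟩
    exact absurd h4 (not_lt.2 (good_of Dt hcb (hT₀.trans h1) h2 ha1 hlv (hbad a ha1 hc1 T) h3 hB
      hL))
  have h1 : (((bx J B).filter fun a => ∃ T : ℕ, T₀ ≤ T ∧ T ≤ K ∧ B < T ^ 2 ∧
      Real.sqrt T * Real.log T ^ 3 < |∑ p ∈ PR T, Real.log p * tt p a|).card : ℝ) ≤
      (Z.card : ℝ) + ∑ j ∈ Icc j0 (Nat.log 2 K), ((LV VT YT B K j).card : ℝ) := by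
    have h2 := (Finset.card_le_card hsub).trans (Finset.card_union_le _ _)
    have h3 := h2.trans (add_le_add le_rfl Finset.card_biUnion_le)
    exact_mod_cast h3
  refine h1.trans (add_le_add le_rfl ?_)
  have hcA := cA_nonneg (C := C) F.hD hm0
  have h3 : ∀ j ∈ Icc j0 (Nat.log 2 K), ((LV VT YT B K j).card : ℝ) ≤
      AA J B * cA C D m * (1 / (j : ℝ) ^ 2) := fun j hj =>
    card_LV F Dt.hY hm0 hm (hj1.trans (Finset.mem_Icc.1 hj).1)
  refine (Finset.sum_le_sum h3).trans ?_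
  rw [← Finset.mul_sum]
  have h4 := sum_inv_sq j0 (Nat.log 2 K) hj1
  have h5 : (2 : ℝ) / j0 ≤ 4 / Real.log T₀ := by
    have hj0' : (1 : ℝ) ≤ j0 := by exact_mod_cast hj1
    rw [div_le_div_iff₀ (by linarith) hlT]
    have h6 : Real.log T₀ ≤ ((j0 : ℝ) + 1) * Real.log 2 := by
      have h7 : (T₀ : ℝ) ≤ 2 ^ (j0 + 1) := by
        have := (Nat.lt_pow_succ_log_self (b := 2) (by norm_num) T₀).le
        rw [← hj0] at this
        exact_mod_cast this
      have h8 := Real.log_le_log (by linarith) h7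
      rw [Real.log_pow] at h8
      push_cast at h8
      exact h8
    have h7 : Real.log 2 ≤ 1 := by
      have := Real.log_two_lt_d9; linarith
    nlinarith
  have h6 : 0 ≤ AA J B * cA C D m := by
    have := AA_nonneg J B
    positivity
  refine (mul_le_mul_of_nonneg_left (h4.trans h5) h6).trans (le_of_eq ?_)
  unfold AA
  ring

end Level

end Pool.Agent.Helper29.LG
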