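import Pool.Agent.Helper29.LG.Bad
import Pool.Agent.Helper29.LG.Asm

set_option autoImplicit false

namespace Pool.Agent.Helper29.LG

open Finset MvPolynomial
open Pool.Agent.Helper29.LN
open Pool.Agent.Helper28.TL (Mom mom_of ZZ ZZ_nonneg box_mean)
open Pool.Agent.Helper28.TC (bx PR WW WW_nonneg up up_cast AA AA_nonneg)

section HT

variable {R : Type} [CommRing R] {k n s d : ℕ} (b : Fin d → R)
  (G : (p : ℕ) → [Fact p.Prime] → (R →+* ZMod p) → (Fin k × Mono n s → ZMod p) → ℝ)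

/-- The sum over the homomorphisms. -/
noncomputable def HT (p : ℕ) (a : (Fin k × Mono n s) × Fin d → ℤ) : ℝ :=
  if h : p.Prime then
    haveI : Fact p.Prime := ⟨h⟩
    ∑ᶠ φ : R →+* ZMod p, G p φ fun j => φ (coord b a j)
  else 0

lemma HT_eq {p : ℕ} [hp : Fact p.Prime] [Fintype (R →+* ZMod p)]
    (a : (Fin k × Mono n s) × Fin d → ℤ) :
    HT b G p a = ∑ φ : R →+* ZMod p, G p φ fun j => φ (coord b a j) := by
  unfold HT
  rw [dif_pos hp.out, finsum_eq_sum_of_fintype]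

lemma HT_mod {M p : ℕ} [NeZero M] (hp : p.Prime) (h : p ∣ M)
    (a : (Fin k × Mono n s) × Fin d → ℤ) :
    HT b G p (up fun m => ((a m : ℤ) : ZMod M)) = HT b G p a := by
  have : Fact p.Prime := ⟨hp⟩
  unfold HT
  rw [dif_pos hp, dif_pos hp]
  refine finsum_congr fun φ => ?_
  congr 1
  funext j
  rw [map_coord, map_coord]
  refine Finset.sum_congr rfl fun i _ => ?_
  rw [up_cast h]
  congr 1
  exact map_intCast _ _

end HT

section Terms

variable {R : Type} [CommRing R] {r c k s d : ℕ} (h : Fin c → MvPolynomial (Fin (r + 4)) R)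
    (g : Fin k → MvPolynomial (Fin (r + 4)) R)

/-- The main part of the term of a homomorphism. -/
noncomputable def V1 {p : ℕ} [Fact p.Prime] (φ : R →+* ZMod p)
    (u : Fin k × Mono (r + 4) s → ZMod p) : ℝ :=
  DD (XU h g φ) (gv g φ) u / (p * (p - 1))

/-- The main terms with weights. -/
noncomputable def VT (b : Fin d → R) (w : ∀ p : ℕ, (R →+* ZMod p) → ℝ) :
    ℕ → ((Fin k × Mono (r + 4) s) × Fin d → ℤ) → ℝ :=
  HT b fun p _ φ u => w p φ * V1 h g φ u

/-- The squares of the main terms. -/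
noncomputable def YT (b : Fin d → R) :
    ℕ → ((Fin k × Mono (r + 4) s) × Fin d → ℤ) → ℝ :=
  HT b fun _ _ φ u => V1 h g φ u ^ 2

open Classical in
lemma t1_sub {C₀ : ℝ} (hC : 0 ≤ C₀) {p : ℕ} [Fact p.Prime] (φ : R →+* ZMod p)
    (hW : |points φ (Set.range h) - (p : ℝ) ^ 3| ≤ C₀ * (p : ℝ) ^ 2)
    (hZ : points φ (Set.range h ∪ Set.range g) ≤ C₀ * p)
    (a : Fin k × Mono (r + 4) s → R) :
    |t1 φ h g a - V1 h g φ fun j => φ (a j)| ≤ C₀ / Real.sqrt p +
      (if Good φ h (form g a) then 0 else (2 * C₀ + 1) + |V1 h g φ fun j => φ (a j)|) := by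
  classical
  have hp2 : (2 : ℝ) ≤ p := by exact_mod_cast (Fact.out : p.Prime).two_le
  have hp : (0 : ℝ) < p := by linarith
  have hs0 : 0 < Real.sqrt p := Real.sqrt_pos.2 hp
  have hz0 := points_nonneg φ (Set.range h ∪ Set.range g)
  have hE := expect_abs h g φ hC hW hZ
  unfold t1
  by_cases hgd : Good φ h (form g a)
  · rw [if_pos hgd, if_pos hgd, trace_eq, add_zero]
    have e1 : gg h g φ (fun j => φ (a j)) - V1 h g φ (fun j => φ (a j)) =
        -(points φ (Set.range h ∪ Set.range g) / (p : ℝ) ^ 2) := by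
      unfold gg V1
      ring
    rw [e1, abs_neg, abs_of_nonneg (by positivity), div_le_div_iff₀ (by positivity) hs0]
    have h2 : Real.sqrt p ≤ p := by
      have h3 : 1 ≤ Real.sqrt p := Real.one_le_sqrt.2 (by linarith)
      calc Real.sqrt p ≤ Real.sqrt p * Real.sqrt p := by nlinarith
        _ = p := Real.mul_self_sqrt hp.le
    calc points φ (Set.range h ∪ Set.range g) * Real.sqrt p ≤ (C₀ * p) * p :=
          mul_le_mul hZ h2 hs0.le (by positivity)
      _ = C₀ * (p : ℝ) ^ 2 := by ring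
  · rw [if_neg hgd, if_neg hgd]
    have h1 : |-expect φ h g - V1 h g φ fun j => φ (a j)| ≤
        |expect φ h g| + |V1 h g φ fun j => φ (a j)| := by
      refine (abs_sub _ _).trans ?_
      rw [abs_neg]
    have h2 : 0 ≤ C₀ / Real.sqrt p := by positivity
    linarith

variable (b : Module.Basis (Fin d) ℤ R)

lemma YT_nonneg (p : ℕ) (a : (Fin k × Mono (r + 4) s) × Fin d → ℤ) : 0 ≤ YT h g b p a := by
  unfold YT
  by_cases hp : p.Prime
  · have hpf : Fact p.Prime := ⟨hp⟩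
    have hfin : Finite (R →+* ZMod p) := hom_finite b
    have := Fintype.ofFinite (R →+* ZMod p)
    rw [HT_eq]
    exact Finset.sum_nonneg fun φ _ => sq_nonneg _
  · unfold HT
    rw [dif_neg hp]

lemma BT_nonneg (p : ℕ) (a : (Fin k × Mono (r + 4) s) × Fin d → ℤ) : 0 ≤ BT h g b p a := by
  classical
  unfold BT
  apply finsum_nonneg
  intro φ
  split_ifs <;> norm_num

theorem dat {C₀ : ℝ} (hC : 0 ≤ C₀)
    (hW : ∀ p : ℕ, p.Prime → ∀ φ : R →+* ZMod p,
      |points φ (Set.range h) - (p : ℝ) ^ 3| ≤ C₀ * (p : ℝ) ^ 2)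
    (hZ : ∀ p : ℕ, p.Prime → ∀ φ : R →+* ZMod p,
      points φ (Set.range h ∪ Set.range g) ≤ C₀ * p)
    {w : ∀ p : ℕ, (R →+* ZMod p) → ℝ} (hw : ∀ p φ, |w p φ| ≤ 1) :
    Dat (tt (s := s) w b h g) (VT h g b w) (YT h g b) (BT h g b) (d * C₀) (2 * C₀ + 1) := by
  classical
  refine ⟨by positivity, by positivity, YT_nonneg h g b, BT_nonneg h g b, fun p hp a => ?_⟩
  have hpf : Fact p.Prime := ⟨hp⟩
  have hp0 : (0 : ℝ) < p := by exact_mod_cast hp.pos
  have hfin : Finite (R →+* ZMod p) := hom_finite b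
  have := Fintype.ofFinite (R →+* ZMod p)
  have hcard : (Fintype.card (R →+* ZMod p) : ℝ) ≤ d := by exact_mod_cast card_hom_le b
  have e1 : tt w b h g p a = ∑ φ : R →+* ZMod p, w p φ * t1 φ h g (coord b a) := by
    unfold tt
    rw [finsum_eq_sum_of_fintype]
  have e2 : VT h g b w p a = ∑ φ : R →+* ZMod p,
      w p φ * V1 h g φ fun j => φ (coord b a j) := HT_eq _ _ _
  have e4 : BT h g b p a = ∑ φ : R →+* ZMod p,
      if Good φ h (form g (coord b a)) then (0 : ℝ) else 1 := by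
    unfold BT
    rw [finsum_eq_sum_of_fintype]
  have e5 : YT h g b p a = ∑ φ : R →+* ZMod p,
      (V1 h g φ fun j => φ (coord b a j)) ^ 2 := HT_eq _ _ _
  have h1 : ∀ φ : R →+* ZMod p,
      |w p φ * t1 φ h g (coord b a) - w p φ * V1 h g φ fun j => φ (coord b a j)| ≤
      C₀ / Real.sqrt p + ((2 * C₀ + 1) * (if Good φ h (form g (coord b a)) then (0 : ℝ) else 1) +
        (if Good φ h (form g (coord b a)) then (0 : ℝ) else 1) *
          |V1 h g φ fun j => φ (coord b a j)|) := by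
    intro φ
    rw [← mul_sub, abs_mul]
    have h2 : |w p φ| * |t1 φ h g (coord b a) - V1 h g φ fun j => φ (coord b a j)| ≤
        |t1 φ h g (coord b a) - V1 h g φ fun j => φ (coord b a j)| :=
      mul_le_of_le_one_left (abs_nonneg _) (hw p φ)
    refine h2.trans ((t1_sub h g hC φ (hW p hp φ) (hZ p hp φ) (coord b a)).trans (le_of_eq ?_))
    by_cases hgd : Good φ h (form g (coord b a))
    · rw [if_pos hgd, if_pos hgd]; ring
    · rw [if_neg hgd, if_neg hgd]; ring
  rw [e1, e2, ← Finset.sum_sub_distrib]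
  refine (Finset.abs_sum_le_sum_abs _ _).trans ((Finset.sum_le_sum fun φ _ => h1 φ).trans ?_)
  rw [Finset.sum_add_distrib, Finset.sum_add_distrib, ← Finset.mul_sum, ← e4, Finset.sum_const,
    Finset.card_univ, nsmul_eq_mul]
  have h2 : ∑ φ : R →+* ZMod p, (if Good φ h (form g (coord b a)) then (0 : ℝ) else 1) *
      |V1 h g φ fun j => φ (coord b a j)| ≤
      Real.sqrt (BT h g b p a) * Real.sqrt (YT h g b p a) := by
    refine (Real.sum_mul_le_sqrt_mul_sqrt _ _ _).trans (le_of_eq ?_)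
    rw [e4, e5]
    congr 2
    · refine Finset.sum_congr rfl fun φ _ => ?_
      split_ifs <;> norm_num
    · refine Finset.sum_congr rfl fun φ _ => ?_
      rw [sq_abs]
  have h3 : (Fintype.card (R →+* ZMod p) : ℝ) * (C₀ / Real.sqrt p) ≤ d * C₀ / Real.sqrt p := by
    rw [mul_div_assoc]
    exact mul_le_mul_of_nonneg_right hcard (by positivity)
  linarith

end Terms

section Moments

variable {R : Type} [CommRing R] {r c k s d : ℕ} (h : Fin c → MvPolynomial (Fin (r + 4)) R)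
    (g : Fin k → MvPolynomial (Fin (r + 4)) R) (b : Module.Basis (Fin d) ℤ R)
    {M H K B : ℕ} [NeZero M] {C₁ C₂ : ℝ}

/-- The two moment estimates for the sums over the points. -/
structure Est (M H K : ℕ) [NeZero M] (C₁ C₂ : ℝ) : Prop where
  h1 : 0 ≤ C₁
  h2 : 0 ≤ C₂
  hd : ∀ (p : ℕ) [Fact p.Prime], p ≤ K → ∀ [Fintype (R →+* ZMod p)] (w : (R →+* ZMod p) → ℝ),
    (∀ φ, |w φ| ≤ 1) →
    ∑ a : (Fin k × Mono (r + 4) s) × Fin d → ZMod M, WW H a *
      (∑ φ : R →+* ZMod p, w φ * DD (XU h g φ) (gv g φ) fun j => φ (coord b (up a) j)) ^ 2 ≤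
      ZZ ((Fin k × Mono (r + 4) s) × Fin d) M H * (C₂ * (p : ℝ) ^ 4)
  ho : ∀ (p q : ℕ) [Fact p.Prime] [Fact q.Prime], p ≠ q → p ≤ K → q ≤ K →
    ∀ (φ : R →+* ZMod p) (φ' : R →+* ZMod q),
    |∑ a : (Fin k × Mono (r + 4) s) × Fin d → ZMod M, WW H a *
      ((DD (XU h g φ) (gv g φ) fun j => φ (coord b (up a) j)) *
        (DD (XU h g φ') (gv g φ') fun j => φ' (coord b (up a) j)))| ≤
      ZZ ((Fin k × Mono (r + 4) s) × Fin d) M H *
        (C₁ * (((p : ℝ) - 1) * ((q : ℝ) - 1) * Real.sqrt (p * q)))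

variable {h g b} (E : Est (s := s) h g b M H K C₁ C₂)

include E in
lemma sum_VT_sq {p : ℕ} (hp : p.Prime) (hpK : p ≤ K) {w : ∀ p : ℕ, (R →+* ZMod p) → ℝ}
    (hw : ∀ p φ, |w p φ| ≤ 1) :
    ∑ a : (Fin k × Mono (r + 4) s) × Fin d → ZMod M, WW H a * VT h g b w p (up a) ^ 2 ≤
      ZZ ((Fin k × Mono (r + 4) s) × Fin d) M H * (4 * C₂) := by
  have hpf : Fact p.Prime := ⟨hp⟩
  have hp2 : (2 : ℝ) ≤ p := by exact_mod_cast hp.two_le
  have hfin : Finite (R →+* ZMod p) := hom_finite b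
  have := Fintype.ofFinite (R →+* ZMod p)
  have h1 := E.hd p hpK (w p) (hw p)
  have e1 : ∀ a : (Fin k × Mono (r + 4) s) × Fin d → ZMod M, WW H a * VT h g b w p (up a) ^ 2 =
      (WW H a * (∑ φ : R →+* ZMod p, w p φ *
        DD (XU h g φ) (gv g φ) fun j => φ (coord b (up a) j)) ^ 2) *
        (1 / ((p : ℝ) * (p - 1)) ^ 2) := by
    intro a
    have e2 : VT h g b w p (up a) = (∑ φ : R →+* ZMod p, w p φ *
        DD (XU h g φ) (gv g φ) fun j => φ (coord b (up a) j)) * (1 / ((p : ℝ) * (p - 1))) := by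
      unfold VT
      rw [HT_eq, Finset.sum_mul]
      refine Finset.sum_congr rfl fun φ _ => ?_
      unfold V1
      ring
    rw [e2, mul_pow, one_div_pow]
    ring
  simp_rw [e1]
  rw [← Finset.sum_mul]
  refine (mul_le_mul_of_nonneg_right h1 (by positivity)).trans ?_
  have h3 : (p : ℝ) ^ 4 * (1 / ((p : ℝ) * (p - 1)) ^ 2) ≤ 4 := by
    rw [mul_one_div, div_le_iff₀ (by
      have : (0 : ℝ) < (p : ℝ) * (p - 1) := by nlinarith
      positivity)]
    have h4 : (p : ℝ) ^ 2 ≤ 2 * ((p : ℝ) * (p - 1)) := by nlinarith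
    have h5 := pow_le_pow_left₀ (by positivity) h4 2
    nlinarith
  have h4 : 0 ≤ ZZ ((Fin k × Mono (r + 4) s) × Fin d) M H * C₂ := mul_nonneg ZZ_nonneg E.h2
  calc _ = ZZ ((Fin k × Mono (r + 4) s) × Fin d) M H * C₂ *
        ((p : ℝ) ^ 4 * (1 / ((p : ℝ) * (p - 1)) ^ 2)) := by ring
    _ ≤ ZZ ((Fin k × Mono (r + 4) s) × Fin d) M H * C₂ * 4 := mul_le_mul_of_nonneg_left h3 h4
    _ = _ := by ring

include E in
lemma sum_VT_mul {p q : ℕ} (hp : p.Prime) (hq : q.Prime) (hpK : p ≤ K) (hqK : q ≤ K)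
    (hpq : p ≠ q) {w : ∀ p : ℕ, (R →+* ZMod p) → ℝ} (hw : ∀ p φ, |w p φ| ≤ 1) :
    |∑ a : (Fin k × Mono (r + 4) s) × Fin d → ZMod M, WW H a *
      (VT h g b w p (up a) * VT h g b w q (up a))| ≤
      ZZ ((Fin k × Mono (r + 4) s) × Fin d) M H *
        ((d * Real.sqrt C₁ / Real.sqrt p) * (d * Real.sqrt C₁ / Real.sqrt q)) := by
  have hpf : Fact p.Prime := ⟨hp⟩
  have hqf : Fact q.Prime := ⟨hq⟩
  have hp2 : (2 : ℝ) ≤ p := by exact_mod_cast hp.two_le
  have hq2 : (2 : ℝ) ≤ q := by exact_mod_cast hq.two_le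
  have hp0 : (0 : ℝ) < p := by linarith
  have hq0 : (0 : ℝ) < q := by linarith
  have hp1 : (0 : ℝ) < p - 1 := by linarith
  have hq1 : (0 : ℝ) < q - 1 := by linarith
  have hfin : Finite (R →+* ZMod p) := hom_finite b
  have := Fintype.ofFinite (R →+* ZMod p)
  have hfin' : Finite (R →+* ZMod q) := hom_finite b
  have := Fintype.ofFinite (R →+* ZMod q)
  have hcp : (Fintype.card (R →+* ZMod p) : ℝ) ≤ d := by exact_mod_cast card_hom_le b
  have hcq : (Fintype.card (R →+* ZMod q) : ℝ) ≤ d := by exact_mod_cast card_hom_le b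
  have hZ : 0 ≤ ZZ ((Fin k × Mono (r + 4) s) × Fin d) M H := ZZ_nonneg
  have e1 : ∑ a : (Fin k × Mono (r + 4) s) × Fin d → ZMod M, WW H a *
      (VT h g b w p (up a) * VT h g b w q (up a)) =
      ∑ φ : R →+* ZMod p, ∑ φ' : R →+* ZMod q,
        (w p φ * w q φ' * (1 / (((p : ℝ) * (p - 1)) * ((q : ℝ) * (q - 1))))) *
        ∑ a : (Fin k × Mono (r + 4) s) × Fin d → ZMod M, WW H a *
          ((DD (XU h g φ) (gv g φ) fun j => φ (coord b (up a) j)) *
            (DD (XU h g φ') (gv g φ') fun j => φ' (coord b (up a) j))) := by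
    simp_rw [Finset.mul_sum]
    have e2 : ∀ a : (Fin k × Mono (r + 4) s) × Fin d → ZMod M, WW H a *
        (VT h g b w p (up a) * VT h g b w q (up a)) =
        ∑ φ : R →+* ZMod p, ∑ φ' : R →+* ZMod q,
        (w p φ * w q φ' * (1 / (((p : ℝ) * (p - 1)) * ((q : ℝ) * (q - 1))))) *
        (WW H a * ((DD (XU h g φ) (gv g φ) fun j => φ (coord b (up a) j)) *
            (DD (XU h g φ') (gv g φ') fun j => φ' (coord b (up a) j)))) := by
      intro a
      unfold VT
      rw [HT_eq, HT_eq, Finset.sum_mul_sum, Finset.mul_sum]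
      refine Finset.sum_congr rfl fun φ _ => ?_
      rw [Finset.mul_sum]
      refine Finset.sum_congr rfl fun φ' _ => ?_
      unfold V1
      rw [one_div, mul_inv]
      ring
    rw [Finset.sum_congr rfl fun a _ => e2 a, Finset.sum_comm]
    refine Finset.sum_congr rfl fun φ _ => ?_
    rw [Finset.sum_comm]
  rw [e1]
  have h2 : ∀ φ : R →+* ZMod p, ∀ φ' : R →+* ZMod q,
      |(w p φ * w q φ' * (1 / (((p : ℝ) * (p - 1)) * ((q : ℝ) * (q - 1))))) *
        ∑ a : (Fin k × Mono (r + 4) s) × Fin d → ZMod M, WW H a *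
          ((DD (XU h g φ) (gv g φ) fun j => φ (coord b (up a) j)) *
            (DD (XU h g φ') (gv g φ') fun j => φ' (coord b (up a) j)))| ≤
      ZZ ((Fin k × Mono (r + 4) s) × Fin d) M H * (C₁ / (Real.sqrt p * Real.sqrt q)) := by
    intro φ φ'
    have h3 := E.ho p q hpq hpK hqK φ φ'
    rw [abs_mul, abs_mul, abs_mul, abs_of_nonneg (by positivity :
      0 ≤ 1 / (((p : ℝ) * (p - 1)) * ((q : ℝ) * (q - 1))))]
    have h4 : |w p φ| * |w q φ'| ≤ 1 := mul_le_one₀ (hw p φ) (abs_nonneg _) (hw q φ')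
    calc |w p φ| * |w q φ'| * (1 / (((p : ℝ) * (p - 1)) * ((q : ℝ) * (q - 1)))) * _ ≤
        1 * (1 / (((p : ℝ) * (p - 1)) * ((q : ℝ) * (q - 1)))) *
          (ZZ ((Fin k × Mono (r + 4) s) × Fin d) M H *
            (C₁ * (((p : ℝ) - 1) * ((q : ℝ) - 1) * Real.sqrt (p * q)))) := by
          apply mul_le_mul _ h3 (abs_nonneg _) (by positivity)
          exact mul_le_mul_of_nonneg_right h4 (by positivity)
      _ = ZZ ((Fin k × Mono (r + 4) s) × Fin d) M H * (C₁ / (Real.sqrt p * Real.sqrt q)) := by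
          rw [Real.sqrt_mul hp0.le]
          obtain ⟨x, hx⟩ : ∃ x, x = Real.sqrt p := ⟨_, rfl⟩
          obtain ⟨y, hy⟩ : ∃ y, y = Real.sqrt q := ⟨_, rfl⟩
          have hpx : (p : ℝ) = x ^ 2 := by rw [hx, Real.sq_sqrt hp0.le]
          have hqy : (q : ℝ) = y ^ 2 := by rw [hy, Real.sq_sqrt hq0.le]
          have hx0 : x ≠ 0 := by rw [hx]; exact (Real.sqrt_pos.2 hp0).ne'
          have hy0 : y ≠ 0 := by rw [hy]; exact (Real.sqrt_pos.2 hq0).ne'
          rw [← hx, ← hy]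
          rw [hpx] at hp1 ⊢
          rw [hqy] at hq1 ⊢
          have hp1' := hp1.ne'
          have hq1' := hq1.ne'
          field_simp
  refine (Finset.abs_sum_le_sum_abs _ _).trans ((Finset.sum_le_sum fun φ _ =>
    (Finset.abs_sum_le_sum_abs _ _).trans (Finset.sum_le_sum fun φ' _ => h2 φ φ')).trans ?_)
  rw [Finset.sum_const, Finset.sum_const, Finset.card_univ, Finset.card_univ, nsmul_eq_mul,
    nsmul_eq_mul]
  have h5 : 0 ≤ ZZ ((Fin k × Mono (r + 4) s) × Fin d) M H * (C₁ / (Real.sqrt p * Real.sqrt q)) := by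
    have := E.h1
    positivity
  calc _ ≤ (d : ℝ) * (d * (ZZ ((Fin k × Mono (r + 4) s) × Fin d) M H *
        (C₁ / (Real.sqrt p * Real.sqrt q)))) := by
        apply mul_le_mul hcp _ (by positivity) (Nat.cast_nonneg _)
        exact mul_le_mul_of_nonneg_right hcq h5
    _ = _ := by
        have h6 : Real.sqrt C₁ * Real.sqrt C₁ = C₁ := Real.mul_self_sqrt E.h1
        have hsp0 : 0 < Real.sqrt p := Real.sqrt_pos.2 hp0
        have hsq0 : 0 < Real.sqrt q := Real.sqrt_pos.2 hq0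
        have e3 : (d * Real.sqrt C₁ / Real.sqrt p) * (d * Real.sqrt C₁ / Real.sqrt q) =
            d * d * ((Real.sqrt C₁ * Real.sqrt C₁) / (Real.sqrt p * Real.sqrt q)) := by
          field_simp
        rw [e3, h6]
        ring

include E in
theorem mom (hM : M = 8 * B * H) (hB : 1 ≤ B) (hH : 1 ≤ H)
    (hdvd : ∀ p, p.Prime → p ≤ K → p ∣ M) {w : ∀ p : ℕ, (R →+* ZMod p) → ℝ}
    (hw : ∀ p φ, |w p φ| ≤ 1) :
    Mom (VT (s := s) h g b w) K B (d * Real.sqrt C₁) (4 * C₂) := by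
  have h2 := E.h2
  refine mom_of _ (by positivity) (by positivity) hM hB hH ?_ ?_ ?_
  · intro p hp hpK a
    exact HT_mod b _ hp (hdvd p hp hpK) a
  · intro p hp hpK
    exact sum_VT_sq E hp hpK hw
  · intro p q hp hq hpK hqK hpq
    exact sum_VT_mul E hp hq hpK hqK hpq hw

include E in
theorem mean_YT (hM : M = 8 * B * H) (hB : 1 ≤ B) (hH : 1 ≤ H)
    (hdvd : ∀ p, p.Prime → p ≤ K → p ∣ M) (p : ℕ) (hp : p.Prime) (hpK : p ≤ K) :
    ∑ a ∈ bx ((Fin k × Mono (r + 4) s) × Fin d) B, YT h g b p a ≤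
      AA ((Fin k × Mono (r + 4) s) × Fin d) B * (d * (4 * C₂)) := by
  classical
  have hpf : Fact p.Prime := ⟨hp⟩
  have hfin : Finite (R →+* ZMod p) := hom_finite b
  have := Fintype.ofFinite (R →+* ZMod p)
  have hcard : (Fintype.card (R →+* ZMod p) : ℝ) ≤ d := by exact_mod_cast card_hom_le b
  have hC := E.h2
  have h1 : ∑ a : (Fin k × Mono (r + 4) s) × Fin d → ZMod M, WW H a * YT h g b p (up a) ≤
      ZZ ((Fin k × Mono (r + 4) s) × Fin d) M H * (d * (4 * C₂)) := by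
    have e1 : ∀ a : (Fin k × Mono (r + 4) s) × Fin d → ZMod M, WW H a * YT h g b p (up a) =
        ∑ φ : R →+* ZMod p, WW H a * VT h g b
          (fun p' φ' => if h : p' = p then (if (h ▸ φ') = φ then 1 else 0) else 0) p (up a) ^ 2 := by
      intro a
      have e2 : YT h g b p (up a) = ∑ φ : R →+* ZMod p,
        (V1 h g φ fun j => φ (coord b (up a) j)) ^ 2 := HT_eq _ _ _
      rw [e2, Finset.mul_sum]
      refine Finset.sum_congr rfl fun φ _ => ?_
      unfold VT
      rw [HT_eq, Finset.sum_eq_single φ]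
      · simp
      · intro φ' _ hφ'
        simp [hφ']
      · intro hφ; exact absurd (Finset.mem_univ _) hφ
    rw [Finset.sum_congr rfl fun a _ => e1 a, Finset.sum_comm]
    have h3 : ∀ φ : R →+* ZMod p, ∑ a : (Fin k × Mono (r + 4) s) × Fin d → ZMod M,
        WW H a * VT h g b
          (fun p' φ' => if h : p' = p then (if (h ▸ φ') = φ then 1 else 0) else 0) p (up a) ^ 2 ≤
        ZZ ((Fin k × Mono (r + 4) s) × Fin d) M H * (4 * C₂) := by
      intro φ
      apply sum_VT_sq E hp hpK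
      intro p' φ'
      split_ifs <;> simp
    refine (Finset.sum_le_sum fun φ _ => h3 φ).trans ?_
    rw [Finset.sum_const, Finset.card_univ, nsmul_eq_mul]
    have h4 : 0 ≤ ZZ ((Fin k × Mono (r + 4) s) × Fin d) M H * (4 * C₂) :=
      mul_nonneg ZZ_nonneg (by positivity)
    refine (mul_le_mul_of_nonneg_right hcard h4).trans (le_of_eq ?_)
    ring
  have h2 := box_mean hM hB hH (fun a => YT h g b p (up a))
    (fun a => YT_nonneg h g b p _) (by positivity) h1
  refine le_trans (le_of_eq ?_) h2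
  refine Finset.sum_congr rfl fun a _ => ?_
  exact (HT_mod b _ hp (hdvd p hp hpK) a).symm

end Moments

end Pool.Agent.Helper29.LG
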