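import Pool.Agent.Helper29.LG.Main
import Pool.Agent.Helper29.LG.Defs
import Pool.Agent.LL.Est

/-!
# All long ranges at once
-/

set_option autoImplicit false

namespace Pool.Agent.Helper29.LG

open Finset MvPolynomial
open Pool.Agent.Helper29.LN

variable {R : Type} [CommRing R] {r c k s d : ℕ}

open Classical in
theorem main_all [IsDomain R] (b : Module.Basis (Fin d) ℤ R)
    {h : Fin c → MvPolynomial (Fin (r + 4)) R}
    {g : Fin k → MvPolynomial (Fin (r + 4)) R} {δ : Fin c → ℕ}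
    (hh : ∀ i, (h i).IsHomogeneous (δ i)) {e : ℕ} (hg : ∀ i, (g i).IsHomogeneous e)
    (hs : 1 ≤ s) {C₀ : ℝ}
    (hW : ∀ p : ℕ, p.Prime → ∀ φ : R →+* ZMod p,
      |points φ (Set.range h) - (p : ℝ) ^ 3| ≤ C₀ * (p : ℝ) ^ 2)
    (hZ : ∀ p : ℕ, p.Prime → ∀ φ : R →+* ZMod p,
      points φ (Set.range h ∪ Set.range g) ≤ C₀ * p)
    {ψ : R →+* ℂ} (hψ : Function.Injective ψ)
    {a₀ : Fin k × Mono (r + 4) s → R} (hS : SmoothSection ψ h (form g a₀)) :
    ∃ (C : ℝ) (B₀ : ℕ), ∀ w : ∀ p : ℕ, (R →+* ZMod p) → ℝ, (∀ p φ, |w p φ| ≤ 1) →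
      ∀ T₀ B : ℕ, 2 ≤ T₀ →
      (((box (r + 4) k s d B).filter fun a => ∃ T : ℕ, T₀ ≤ T ∧
        (T ^ 2 ≤ B ∨ (B₀ ≤ B ∧ LongRange r s B T)) ∧
        Real.log T ^ 3 / Real.sqrt T <
          |average w T h (form g (coord b a)) - expectAverage w T h g|).card : ℝ) ≤
        C / Real.log T₀ * (box (r + 4) k s d B).card := by
  obtain ⟨C1, hC1⟩ := main (s := s) b hh hg hs hW hZ hψ hS
  have hW' : ∀ p : ℕ, p.Prime → ∀ φ : R →+* ZMod p,
      |points φ (Set.range h) - (p : ℝ) ^ 3| ≤ |C₀| * (p : ℝ) ^ 2 := fun p hp φ =>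
    (hW p hp φ).trans (mul_le_mul_of_nonneg_right (le_abs_self _) (by positivity))
  have hZ' : ∀ p : ℕ, p.Prime → ∀ φ : R →+* ZMod p,
      points φ (Set.range h ∪ Set.range g) ≤ |C₀| * p := fun p hp φ =>
    (hZ p hp φ).trans (mul_le_mul_of_nonneg_right (le_abs_self _) (by positivity))
  have key : ∀ m : ℕ, ∃ (C : ℝ) (B₀ : ℕ), 0 ≤ C ∧ (2 ≤ m → m < s →
      (∀ j : ℕ, 0 < j → j < m → 2 * (r + 3) * ((m - j) * (j + 1)) ≤
        (m + 2) * (s + 1 - 2 * j)) →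
      ∀ w : ∀ p : ℕ, (R →+* ZMod p) → ℝ, (∀ p φ, |w p φ| ≤ 1) →
      ∀ T₀ B : ℕ, 2 ≤ T₀ → B₀ ≤ B →
      (((box (r + 4) k s d B).filter fun a => ∃ T : ℕ, T₀ ≤ T ∧ B < T ^ 2 ∧
        s ^ m * T ^ 2 < (8 * B) ^ m ∧ Real.log T ^ 3 / Real.sqrt T <
          |average w T h (form g (coord b a)) - expectAverage w T h g|).card : ℝ) ≤
        C / Real.log T₀ * (box (r + 4) k s d B).card) := by
    intro m
    by_cases hadm : 2 ≤ m ∧ m < s ∧ (∀ j : ℕ, 0 < j → j < m →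
      2 * (r + 3) * ((m - j) * (j + 1)) ≤ (m + 2) * (s + 1 - 2 * j))
    · obtain ⟨h2, h3, h4⟩ := hadm
      obtain ⟨C₁, C₂, hE⟩ := Pool.Agent.LL.est2 (s := s) b h g hW' (m := m) h2 h3
        fun j hj hj' => h4 j hj hj'
      obtain ⟨C, B₀, hC, hmain⟩ := long_of (s := s) b hh hg hs (abs_nonneg C₀) hW' hZ' hψ hS hE
      exact ⟨C, B₀, hC, fun _ _ _ => hmain⟩
    · exact ⟨0, 0, le_rfl, fun h2 h3 h4 => absurd ⟨h2, h3, h4⟩ hadm⟩
  choose C B₀ hC0 hkey using key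
  refine ⟨C1 + ∑ m ∈ range s, C m, ∑ m ∈ range s, B₀ m, fun w hw T₀ B hT₀ => ?_⟩
  have hT0 : (2 : ℝ) ≤ T₀ := by exact_mod_cast hT₀
  have hlT : 0 < Real.log T₀ := Real.log_pos (by linarith)
  obtain ⟨P, hP⟩ : ∃ P : ℕ → Prop, P = fun m => (2 ≤ m ∧ m < s ∧
    (∀ j : ℕ, 0 < j → j < m → 2 * (r + 3) * ((m - j) * (j + 1)) ≤
        (m + 2) * (s + 1 - 2 * j)) ∧ ∑ m ∈ range s, B₀ m ≤ B) := ⟨_, rfl⟩
  obtain ⟨F, hF⟩ : ∃ F : ℕ → Finset ((Fin k × Mono (r + 4) s) × Fin d → ℤ),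
      F = fun m => (box (r + 4) k s d B).filter fun a => P m ∧ ∃ T : ℕ, T₀ ≤ T ∧ B < T ^ 2 ∧
        s ^ m * T ^ 2 < (8 * B) ^ m ∧ Real.log T ^ 3 / Real.sqrt T <
          |average w T h (form g (coord b a)) - expectAverage w T h g| := ⟨_, rfl⟩
  have hFm : ∀ m ∈ range s, ((F m).card : ℝ) ≤ C m / Real.log T₀ * (box (r + 4) k s d B).card := by
    intro m hm
    by_cases hPm : P m
    · have hPm' := hPm
      rw [hP] at hPm'
      obtain ⟨h2, h3, h4, h5⟩ := hPm'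
      have h6 := hkey m h2 h3 h4 w hw T₀ B hT₀
        ((Finset.single_le_sum (f := B₀) (fun _ _ => Nat.zero_le _) hm).trans h5)
      refine le_trans ?_ h6
      rw [hF]
      have : (box (r + 4) k s d B).filter (fun a => P m ∧ ∃ T : ℕ, T₀ ≤ T ∧ B < T ^ 2 ∧
        s ^ m * T ^ 2 < (8 * B) ^ m ∧ Real.log T ^ 3 / Real.sqrt T <
          |average w T h (form g (coord b a)) - expectAverage w T h g|) ⊆
          (box (r + 4) k s d B).filter (fun a => ∃ T : ℕ, T₀ ≤ T ∧ B < T ^ 2 ∧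
        s ^ m * T ^ 2 < (8 * B) ^ m ∧ Real.log T ^ 3 / Real.sqrt T <
          |average w T h (form g (coord b a)) - expectAverage w T h g|) :=
        Finset.monotone_filter_right _ fun a _ ha => ha.2
      exact_mod_cast Finset.card_le_card this
    · have : F m = ∅ := by
        rw [hF]
        apply Finset.filter_false_of_mem
        intro a _ ha
        exact hPm ha.1
      rw [this, Finset.card_empty, Nat.cast_zero]
      have := hC0 m
      positivity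
  have hsub : ((box (r + 4) k s d B).filter fun a => ∃ T : ℕ, T₀ ≤ T ∧
        (T ^ 2 ≤ B ∨ (∑ m ∈ range s, B₀ m ≤ B ∧ LongRange r s B T)) ∧
        Real.log T ^ 3 / Real.sqrt T <
          |average w T h (form g (coord b a)) - expectAverage w T h g|) ⊆
        ((box (r + 4) k s d B).filter fun a => ∃ T : ℕ, T₀ ≤ T ∧ T ^ 2 ≤ B ∧
        Real.log T ^ 3 / Real.sqrt T <
          |average w T h (form g (coord b a)) - expectAverage w T h g|) ∪
        (range s).biUnion F := by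
    intro a ha
    obtain ⟨ha1, T, h3, h4, h5⟩ := Finset.mem_filter.1 ha
    rw [Finset.mem_union]
    by_cases h6 : T ^ 2 ≤ B
    · exact Or.inl (Finset.mem_filter.2 ⟨ha1, T, h3, h6, h5⟩)
    · right
      rcases h4 with h4 | ⟨h7, m, h8, h9, h10, h11⟩
      · exact absurd h4 h6
      · rw [Finset.mem_biUnion]
        refine ⟨m, Finset.mem_range.2 h9, ?_⟩
        rw [hF]
        refine Finset.mem_filter.2 ⟨ha1, ?_, T, h3, not_le.1 h6, h11, h5⟩
        rw [hP]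
        exact ⟨h8, h9, h10, h7⟩
  have h1 := hC1 w hw T₀ B hT₀
  have h2 : (((range s).biUnion F).card : ℝ) ≤
      ∑ m ∈ range s, C m / Real.log T₀ * (box (r + 4) k s d B).card := by
    refine le_trans ?_ (Finset.sum_le_sum hFm)
    exact_mod_cast Finset.card_biUnion_le
  have h3 := (Finset.card_le_card hsub).trans (Finset.card_union_le _ _)
  have h4 : (((box (r + 4) k s d B).filter fun a => ∃ T : ℕ, T₀ ≤ T ∧
        (T ^ 2 ≤ B ∨ (∑ m ∈ range s, B₀ m ≤ B ∧ LongRange r s B T)) ∧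
        Real.log T ^ 3 / Real.sqrt T <
          |average w T h (form g (coord b a)) - expectAverage w T h g|).card : ℝ) ≤
        (((box (r + 4) k s d B).filter fun a => ∃ T : ℕ, T₀ ≤ T ∧ T ^ 2 ≤ B ∧
        Real.log T ^ 3 / Real.sqrt T <
          |average w T h (form g (coord b a)) - expectAverage w T h g|).card : ℝ) +
        (((range s).biUnion F).card : ℝ) := by exact_mod_cast h3
  have h5 : (C1 + ∑ m ∈ range s, C m) / Real.log T₀ * (box (r + 4) k s d B).card =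
      C1 / Real.log T₀ * (box (r + 4) k s d B).card +
      ∑ m ∈ range s, C m / Real.log T₀ * (box (r + 4) k s d B).card := by
    rw [← Finset.sum_mul, ← Finset.sum_div]
    ring
  rw [h5]
  linarith

end Pool.Agent.Helper29.LG
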