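import Pool.Agent.Helper29.LN.Fam
import Pool.Agent.Helper28.TL.Dsc

set_option autoImplicit false

namespace Pool.Agent.Helper29.LG

open Finset MvPolynomial
open Pool.Agent.Helper29.LN
open Pool.Agent.Helper28.TL (Pf Pf_norm dvd_norm sum_log_dvd)
open Pool.Agent.Helper28.TC (bx PR)

section Mat

variable {R : Type} [CommRing R] {r c k s D : ℕ} (h : Fin c → MvPolynomial (Fin (r + 4)) R)
    (g : Fin k → MvPolynomial (Fin (r + 4)) R)
    (q : Mono (r + 4) D → GIdx r c → MvPolynomial (Fin (r + 4)) R)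

/-- The square matrix of the certificate over the ring itself. -/
noncomputable def mR (a : Fin k × Mono (r + 4) s → R) :
    Matrix (Mono (r + 4) D) (Mono (r + 4) D) R :=
  fun m' m => coeff (m' : Fin (r + 4) →₀ ℕ) (∑ γ, q m γ * GG (RingHom.id R) h g a γ)

lemma map_mR {kk : Type} [Field kk] (φ : R →+* kk) (a : Fin k × Mono (r + 4) s → R) :
    (mR h g q a).map φ = mac h g q φ fun j => φ (a j) := by
  ext m' m
  simp only [mR, mac, PP, Matrix.map_apply]
  rw [← coeff_map, map_sum]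
  congr 1
  refine Finset.sum_congr rfl fun γ _ => ?_
  rw [map_mul, map_GG]

lemma GG_lin (u : Fin k × Mono (r + 4) s → R) (γ : GIdx r c) :
    GG (RingHom.id R) h g u γ =
      GG (RingHom.id R) h g (0 : Fin k × Mono (r + 4) s → R) γ +
      ∑ j, u j • LL (RingHom.id R) h g (Pi.single j 1 : Fin k × Mono (r + 4) s → R) γ := by
  classical
  have h1 : ∀ S : Finset (Fin k × Mono (r + 4) s), GG (RingHom.id R) h g
      (∑ j ∈ S, u j • (Pi.single j 1 : Fin k × Mono (r + 4) s → R)) γ =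
      GG (RingHom.id R) h g (0 : Fin k × Mono (r + 4) s → R) γ +
        ∑ j ∈ S, u j • LL (RingHom.id R) h g (Pi.single j 1 : Fin k × Mono (r + 4) s → R) γ := by
    intro S
    induction S using Finset.induction_on with
    | empty => rw [Finset.sum_empty, Finset.sum_empty, add_zero]
    | insert j S hj ih =>
        have e1 := GG_affine (RingHom.id R) h g
          (∑ j ∈ S, u j • (Pi.single j 1 : Fin k × Mono (r + 4) s → R))
          (Pi.single j 1 : Fin k × Mono (r + 4) s → R) (u j) γ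
        rw [ih] at e1
        rw [Finset.sum_insert hj, Finset.sum_insert hj,
          add_comm (u j • (Pi.single j 1 : Fin k × Mono (r + 4) s → R)), e1]
        ring
  have h2 : u = ∑ j, u j • (Pi.single j 1 : Fin k × Mono (r + 4) s → R) := by
    funext i
    rw [Finset.sum_apply, Finset.sum_eq_single i]
    · simp
    · intro j _ hj
      simp [Pi.single_apply, hj.symm]
    · intro hi; exact absurd (Finset.mem_univ _) hi
  have h3 := h1 Finset.univ
  rw [← h2] at h3
  exact h3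

lemma mR_lin (u : Fin k × Mono (r + 4) s → R) (m' m : Mono (r + 4) D) :
    mR h g q u m' m = coeff (m' : Fin (r + 4) →₀ ℕ) (∑ γ, q m γ * GG (RingHom.id R) h g
      (0 : Fin k × Mono (r + 4) s → R) γ) +
      ∑ j, u j * coeff (m' : Fin (r + 4) →₀ ℕ)
        (∑ γ, q m γ * LL (RingHom.id R) h g (Pi.single j 1 : Fin k × Mono (r + 4) s → R) γ) := by
  unfold mR
  have h1 : ∑ γ, q m γ * GG (RingHom.id R) h g u γ =
      ∑ γ, q m γ * GG (RingHom.id R) h g (0 : Fin k × Mono (r + 4) s → R) γ +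
      ∑ j, u j • ∑ γ, q m γ * LL (RingHom.id R) h g
        (Pi.single j 1 : Fin k × Mono (r + 4) s → R) γ := by
    simp_rw [Finset.smul_sum]
    rw [Finset.sum_comm, ← Finset.sum_add_distrib]
    refine Finset.sum_congr rfl fun γ _ => ?_
    rw [GG_lin, mul_add, Finset.mul_sum]
    congr 1
    refine Finset.sum_congr rfl fun j _ => ?_
    rw [mul_smul_comm]
  rw [h1, coeff_add]
  congr 1
  rw [coeff_sum]
  refine Finset.sum_congr rfl fun j _ => ?_
  rw [coeff_smul, smul_eq_mul]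

variable {d : ℕ} (b : Fin d → R)

lemma Pf_coord (j : Fin k × Mono (r + 4) s) :
    Pf 1 fun a : (Fin k × Mono (r + 4) s) × Fin d → ℤ => coord b a j :=
  Pf.sum _ fun _ _ => Pf.mul_const _ (Pf.var _)

lemma Pf_mR (m' m : Mono (r + 4) D) :
    Pf 1 fun a : (Fin k × Mono (r + 4) s) × Fin d → ℤ => mR h g q (coord b a) m' m := by
  simp_rw [mR_lin]
  exact (Pf.const 1 _).add (Pf.sum _ fun j _ => Pf.mul_const _ (Pf_coord b j))

end Mat

section Norm

variable {R : Type} [CommRing R] {r c k s D d : ℕ} (h : Fin c → MvPolynomial (Fin (r + 4)) R)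
    (g : Fin k → MvPolynomial (Fin (r + 4)) R)
    (q : Mono (r + 4) D → GIdx r c → MvPolynomial (Fin (r + 4)) R)
    (b : Module.Basis (Fin d) ℤ R)

/-- The norm of the determinant of the certificate. -/
noncomputable def ND (a : (Fin k × Mono (r + 4) s) × Fin d → ℤ) : ℤ :=
  Algebra.norm ℤ (mR h g q (coord b a)).det

lemma Pf_ND : Pf (d * (Fintype.card (Mono (r + 4) D) * 1)) (ND (s := s) h g q b) :=
  Pf_norm b (Pf.det _ fun m' m => Pf_mR h g q b m' m)

lemma coord_repr (a₀ : Fin k × Mono (r + 4) s → R) :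
    coord b (fun x : (Fin k × Mono (r + 4) s) × Fin d => b.repr (a₀ x.1) x.2) = a₀ := by
  funext j
  unfold coord
  conv_rhs => rw [← b.sum_repr (a₀ j)]
  exact Finset.sum_congr rfl fun i _ => by rw [zsmul_eq_mul]

lemma ND_ne {a₀ : Fin k × Mono (r + 4) s → R} {N : ℤ} (hN : N ≠ 0)
    (hq : ∀ m : Mono (r + 4) D, ∑ γ, q m γ * GG (RingHom.id R) h g a₀ γ =
        monomial (m : Fin (r + 4) →₀ ℕ) (N : R)) : ∃ a, ND (s := s) h g q b a ≠ 0 := by
  refine ⟨fun x => b.repr (a₀ x.1) x.2, ?_⟩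
  unfold ND
  rw [coord_repr]
  have h1 : mR h g q a₀ = (N : R) • (1 : Matrix (Mono (r + 4) D) (Mono (r + 4) D) R) := by
    ext m' m
    simp only [mR, Matrix.smul_apply]
    rw [hq, coeff_monomial, Matrix.one_apply]
    by_cases hm : m' = m
    · subst hm; simp
    · have h' : (m : Fin (r + 4) →₀ ℕ) ≠ m' := fun h0 => hm (Subtype.ext h0.symm)
      rw [if_neg h', if_neg hm]; simp
  rw [h1, Matrix.det_smul, Matrix.det_one, mul_one, map_pow]
  have h2 : ((N : ℤ) : R) = algebraMap ℤ R N := (eq_intCast (algebraMap ℤ R) N).symm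
  rw [h2, Algebra.norm_algebraMap_of_basis b]
  exact pow_ne_zero _ (pow_ne_zero _ hN)

lemma bad_dvd {δ : Fin c → ℕ} (hh : ∀ i, (h i).IsHomogeneous (δ i)) {e : ℕ}
    (hg : ∀ i, (g i).IsHomogeneous e) {p : ℕ} [Fact p.Prime] (φ : R →+* ZMod p)
    (a : (Fin k × Mono (r + 4) s) × Fin d → ℤ) (hbad : ¬ Good φ h (form g (coord b a))) :
    (p : ℤ) ∣ ND h g q b a := by
  refine dvd_norm b φ ?_
  have h1 : φ (mR h g q (coord b a)).det = (mac h g q φ fun j => φ (coord b a j)).det := by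
    rw [← map_mR, RingHom.map_det]
    rfl
  rw [h1]
  exact bad_det h g φ q hh hg (fun h' => hbad ((good_lift h g φ _).1 h'))

open Classical in
/-- The number of the homomorphisms with bad reduction. -/
noncomputable def BT (b : Fin d → R) (p : ℕ)
    (a : (Fin k × Mono (r + 4) s) × Fin d → ℤ) : ℝ :=
  ∑ᶠ φ : R →+* ZMod p, if Good φ h (form g (coord b a)) then 0 else 1

lemma BT_le {δ : Fin c → ℕ} (hh : ∀ i, (h i).IsHomogeneous (δ i)) {e : ℕ}
    (hg : ∀ i, (g i).IsHomogeneous e) {p : ℕ} (hp : p.Prime)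
    (a : (Fin k × Mono (r + 4) s) × Fin d → ℤ) :
    BT h g b p a ≤ d * (if (p : ℤ) ∣ ND h g q b a then 1 else 0) := by
  classical
  have hpf : Fact p.Prime := ⟨hp⟩
  have hfin : Finite (R →+* ZMod p) := hom_finite b
  have := Fintype.ofFinite (R →+* ZMod p)
  have hcard : (Fintype.card (R →+* ZMod p) : ℝ) ≤ d := by exact_mod_cast card_hom_le b
  unfold BT
  rw [finsum_eq_sum_of_fintype]
  have h1 : ∀ φ : R →+* ZMod p, (if Good φ h (form g (coord b a)) then (0 : ℝ) else 1) ≤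
      (if (p : ℤ) ∣ ND h g q b a then 1 else 0) := by
    intro φ
    by_cases hgd : Good φ h (form g (coord b a))
    · rw [if_pos hgd]
      split_ifs <;> norm_num
    · rw [if_neg hgd, if_pos (bad_dvd h g q b hh hg φ a hgd)]
  refine (Finset.sum_le_sum fun φ _ => h1 φ).trans ?_
  rw [Finset.sum_const, Finset.card_univ, nsmul_eq_mul]
  apply mul_le_mul_of_nonneg_right hcard
  split_ifs <;> norm_num

/-- The constant in the bound for the bad primes. -/
noncomputable def CB (r D d : ℕ) : ℝ :=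
  d * ((d * (Fintype.card (Mono (r + 4) D) * 1) : ℕ) + 1)

lemma CB_nonneg : 0 ≤ CB r D d := by
  unfold CB
  positivity

/-- The bound for the bad primes. -/
theorem bad_primes {δ : Fin c → ℕ} (hh : ∀ i, (h i).IsHomogeneous (δ i)) {e : ℕ}
    (hg : ∀ i, (g i).IsHomogeneous e) :
    ∃ B₀ : ℕ, ∀ B : ℕ, B₀ ≤ B → ∀ a ∈ bx ((Fin k × Mono (r + 4) s) × Fin d) B,
    ND h g q b a ≠ 0 → ∀ T : ℕ,
      ∑ p ∈ PR T, Real.log p * BT h g b p a ≤ CB r D d * Real.log B := by
  classical
  obtain ⟨Cn, hCn⟩ := Pf.bound (Pf_ND (s := s) h g q b)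
  refine ⟨2 + Cn, fun B hB a ha hN T => ?_⟩
  have hB2 : 2 ≤ B := by omega
  have hBR : (2 : ℝ) ≤ B := by exact_mod_cast hB2
  have hPR : ∀ p ∈ PR T, p.Prime := fun p hp => (Finset.mem_filter.1 hp).2
  have h2 : ∑ p ∈ PR T, Real.log p * BT h g b p a ≤
      d * ∑ p ∈ PR T, Real.log p * (if (p : ℤ) ∣ ND h g q b a then 1 else 0) := by
    rw [Finset.mul_sum]
    refine Finset.sum_le_sum fun p hp => ?_
    have h3 := BT_le h g q b hh hg (hPR p hp) a
    have h4 : 0 ≤ Real.log p := Real.log_nonneg (by exact_mod_cast (hPR p hp).one_le)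
    refine (mul_le_mul_of_nonneg_left h3 h4).trans (le_of_eq ?_)
    ring
  refine h2.trans ?_
  unfold CB
  rw [mul_assoc]
  apply mul_le_mul_of_nonneg_left _ (Nat.cast_nonneg d)
  refine (sum_log_dvd hN T).trans ?_
  have h3 := hCn B (by omega) a ha
  obtain ⟨E, hE⟩ : ∃ E, E = d * (Fintype.card (Mono (r + 4) D) * 1) := ⟨_, rfl⟩
  rw [← hE] at h3 ⊢
  have h4 : |(ND h g q b a : ℝ)| ≤ (B : ℝ) * (B : ℝ) ^ E := by
    have h5 : |(ND h g q b a : ℝ)| ≤ (Cn : ℝ) * (B : ℝ) ^ E := by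
      exact_mod_cast h3
    refine h5.trans (mul_le_mul_of_nonneg_right ?_ (by positivity))
    exact_mod_cast (by omega : Cn ≤ B)
  have h5 : 0 < |(ND h g q b a : ℝ)| := abs_pos.2 (by exact_mod_cast hN)
  refine (Real.log_le_log h5 h4).trans (le_of_eq ?_)
  rw [← pow_succ', Real.log_pow]
  push_cast
  ring

open Classical in
/-- The vectors for which the determinant vanishes are rare. -/
theorem rare {a₀ : Fin k × Mono (r + 4) s → R} {N : ℤ} (hN : N ≠ 0)
    (hq : ∀ m : Mono (r + 4) D, ∑ γ, q m γ * GG (RingHom.id R) h g a₀ γ =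
        monomial (m : Fin (r + 4) →₀ ℕ) (N : R)) (B : ℕ) (hB : 1 ≤ B) :
    (((bx ((Fin k × Mono (r + 4) s) × Fin d) B).filter fun a => ¬ ND h g q b a ≠ 0).card : ℝ) ≤
      ((d * (Fintype.card (Mono (r + 4) D) * 1) : ℕ) : ℝ) / B *
        (bx ((Fin k × Mono (r + 4) s) × Fin d) B).card := by
  have hB0 : (0 : ℝ) < B := by exact_mod_cast hB
  have h1 : ((bx ((Fin k × Mono (r + 4) s) × Fin d) B).filter fun a => ¬ ND h g q b a ≠ 0) =
      ((bx ((Fin k × Mono (r + 4) s) × Fin d) B).filter fun a => ND h g q b a = 0) := by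
    simp only [ne_eq, not_not]
  rw [h1]
  have h3 := Pf.zeros (Pf_ND (s := s) h g q b) (ND_ne h g q b hN hq) B
  rw [div_mul_eq_mul_div, le_div_iff₀ hB0]
  refine le_trans ?_ h3
  apply mul_le_mul_of_nonneg_left _ (Nat.cast_nonneg _)
  linarith

end Norm

end Pool.Agent.Helper29.LG
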