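import Pool.Agent.Helper29.LG.Lnk

set_option autoImplicit false

namespace Pool.Agent.Helper29.LG

open Finset MvPolynomial
open Pool.Agent.Helper29.LN
open Pool.Agent.Helper28.TC (bx PR)

section Main

variable {R : Type} [CommRing R] {r c k s d : ℕ}

lemma exists_K {s m B : ℕ} (hs : 1 ≤ s) (hB : 1 ≤ B) :
    ∃ K : ℕ, s ^ m * K ^ 2 < (8 * B) ^ m ∧ ∀ T : ℕ, s ^ m * T ^ 2 < (8 * B) ^ m → T ≤ K := by
  classical
  refine ⟨Nat.findGreatest (fun T => s ^ m * T ^ 2 < (8 * B) ^ m) ((8 * B) ^ m), ?_, ?_⟩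
  · apply Nat.findGreatest_spec (P := fun T => s ^ m * T ^ 2 < (8 * B) ^ m) (Nat.zero_le _)
    have : 0 < (8 * B) ^ m := pow_pos (by omega) m
    simpa using this
  · intro T hT
    refine Nat.le_findGreatest (P := fun T => s ^ m * T ^ 2 < (8 * B) ^ m) ?_ hT
    have h1 : 1 ≤ s ^ m := Nat.one_le_pow _ _ hs
    rcases Nat.eq_zero_or_pos T with h0 | h0
    · omega
    · nlinarith [Nat.mul_le_mul h1 (Nat.le_refl (T ^ 2))]

open Classical in
/-- The long range, from the moment estimates. -/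
theorem long_of [IsDomain R] (b : Module.Basis (Fin d) ℤ R)
    {h : Fin c → MvPolynomial (Fin (r + 4)) R}
    {g : Fin k → MvPolynomial (Fin (r + 4)) R} {δ : Fin c → ℕ}
    (hh : ∀ i, (h i).IsHomogeneous (δ i)) {e : ℕ} (hg : ∀ i, (g i).IsHomogeneous e)
    (hs : 1 ≤ s) {C₀ : ℝ} (hC : 0 ≤ C₀)
    (hW : ∀ p : ℕ, p.Prime → ∀ φ : R →+* ZMod p,
      |points φ (Set.range h) - (p : ℝ) ^ 3| ≤ C₀ * (p : ℝ) ^ 2)
    (hZ : ∀ p : ℕ, p.Prime → ∀ φ : R →+* ZMod p,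
      points φ (Set.range h ∪ Set.range g) ≤ C₀ * p)
    {ψ : R →+* ℂ} (hψ : Function.Injective ψ)
    {a₀ : Fin k × Mono (r + 4) s → R} (hS : SmoothSection ψ h (form g a₀))
    {m : ℕ} {C₁ C₂ : ℝ} (hE : ∀ (M H K : ℕ) [NeZero M], K ^ 2 * (s * H) ^ m < M ^ m → 1 ≤ H →
      (∀ p, p.Prime → p ≤ K → p ∣ M) → Est (s := s) h g b M H K C₁ C₂) :
    ∃ (C : ℝ) (B₀ : ℕ), 0 ≤ C ∧ ∀ w : ∀ p : ℕ, (R →+* ZMod p) → ℝ, (∀ p φ, |w p φ| ≤ 1) →
      ∀ T₀ B : ℕ, 2 ≤ T₀ → B₀ ≤ B →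
      (((box (r + 4) k s d B).filter fun a => ∃ T : ℕ, T₀ ≤ T ∧ B < T ^ 2 ∧
        s ^ m * T ^ 2 < (8 * B) ^ m ∧ Real.log T ^ 3 / Real.sqrt T <
          |average w T h (form g (coord b a)) - expectAverage w T h g|).card : ℝ) ≤
        C / Real.log T₀ * (box (r + 4) k s d B).card := by
  have hint : Algebra.IsIntegral ℤ R := by
    have : Module.Finite ℤ R := Module.Finite.of_basis b
    infer_instance
  obtain ⟨D, N, hN, q, hq⟩ := exists_cert h g hψ hS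
  obtain ⟨B1, hB1⟩ := bad_primes (s := s) h g q b hh hg
  obtain ⟨cb, hcb⟩ : ∃ cb, cb = CB r D d := ⟨_, rfl⟩
  have hcb0 : 0 ≤ cb := by rw [hcb]; exact CB_nonneg
  obtain ⟨L0, hL0⟩ : ∃ L0 : ℝ, L0 = 4 * (32 * cb + 8 * (d * C₀) + 8 * ((2 * C₀ + 1) * cb)) :=
    ⟨_, rfl⟩
  have hL00 : 0 ≤ L0 := by rw [hL0]; positivity
  obtain ⟨cz, hcz⟩ : ∃ cz : ℝ, cz = ((d * (Fintype.card (Mono (r + 4) D) * 1) : ℕ) : ℝ) := ⟨_, rfl⟩
  have hcz0 : 0 ≤ cz := by rw [hcz]; exact Nat.cast_nonneg _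
  obtain ⟨cl, hcl⟩ : ∃ cl : ℝ, cl = 8 ^ Fintype.card ((Fin k × Mono (r + 4) s) × Fin d) *
    cA (d * Real.sqrt C₁) (4 * C₂) (d * (4 * C₂)) * 4 := ⟨_, rfl⟩
  have hC2 : 0 ≤ C₂ := by
    have hne : NeZero (s * 1 + 1) := ⟨by omega⟩
    by_cases hm : m = 0
    · have := (hE (s * 1 + 1) 1 0 (by rw [hm]; norm_num) le_rfl (fun p hp hp0 => by
        have := hp.pos; omega)).h2
      exact this
    · have := (hE (s * 1 + 1) 1 0 (by
        rw [zero_pow two_ne_zero, zero_mul]; positivity) le_rfl (fun p hp hp0 => by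
        have := hp.pos; omega)).h2
      exact this
  have hcl0 : 0 ≤ cl := by
    rw [hcl]
    have := cA_nonneg (C := d * Real.sqrt C₁) (D := 4 * C₂) (m := d * (4 * C₂)) (by positivity)
      (by positivity)
    positivity
  refine ⟨cz * (4 * m) + cl, B1 + 2 + ⌈Real.exp (Real.sqrt L0)⌉₊, by positivity,
    fun w hw T₀ B hT₀ hB => ?_⟩
  have hBB1 : B1 ≤ B := by omega
  have hB2 : 2 ≤ B := by omega
  have hB1' : 1 ≤ B := by omega
  have hBR : (2 : ℝ) ≤ B := by exact_mod_cast hB2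
  have hB0 : (0 : ℝ) < B := by linarith
  have hlB0 : 0 ≤ Real.log B := Real.log_nonneg (by linarith)
  have hL : L0 ≤ Real.log B ^ 2 := by
    have h1 : Real.exp (Real.sqrt L0) ≤ B := by
      refine (Nat.le_ceil _).trans ?_
      exact_mod_cast (by omega : ⌈Real.exp (Real.sqrt L0)⌉₊ ≤ B)
    have h2 : Real.sqrt L0 ≤ Real.log B := by
      rw [Real.le_log_iff_exp_le (by linarith)]
      exact h1
    have h3 := pow_le_pow_left₀ (Real.sqrt_nonneg _) h2 2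
    rwa [Real.sq_sqrt hL00] at h3
  have hT0 : (2 : ℝ) ≤ T₀ := by exact_mod_cast hT₀
  have hlT : 0 < Real.log T₀ := Real.log_pos (by linarith)
  obtain ⟨K, hK1, hK2⟩ := exists_K (m := m) hs hB1'
  by_cases hTK : T₀ ≤ K
  swap
  · have : ((box (r + 4) k s d B).filter fun a => ∃ T : ℕ, T₀ ≤ T ∧ B < T ^ 2 ∧
        s ^ m * T ^ 2 < (8 * B) ^ m ∧ Real.log T ^ 3 / Real.sqrt T <
          |average w T h (form g (coord b a)) - expectAverage w T h g|) = ∅ := by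
      rw [Finset.filter_eq_empty_iff]
      rintro a _ ⟨T, h1, _, h3, _⟩
      have := hK2 T h3
      omega
    rw [this, Finset.card_empty, Nat.cast_zero]
    positivity
  obtain ⟨H, hH1, hHd⟩ : ∃ H : ℕ, 1 ≤ H ∧ ∀ p, p.Prime → p ≤ K → p ∣ H :=
    ⟨Nat.factorial K, Nat.factorial_pos K, fun p hp hpK => Nat.dvd_factorial hp.pos hpK⟩
  obtain ⟨M, hM⟩ : ∃ M : ℕ, M = 8 * B * H := ⟨_, rfl⟩
  have hM0 : 0 < M := by rw [hM]; positivity
  have : NeZero M := ⟨hM0.ne'⟩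
  have hdvd : ∀ p, p.Prime → p ≤ K → p ∣ M := by
    intro p hp hpK
    rw [hM]
    exact Dvd.dvd.mul_left (hHd p hp hpK) _
  have hcond : K ^ 2 * (s * H) ^ m < M ^ m := by
    rw [hM, mul_pow, mul_pow (8 * B)]
    calc K ^ 2 * (s ^ m * H ^ m) = (s ^ m * K ^ 2) * H ^ m := by ring
      _ < (8 * B) ^ m * H ^ m := Nat.mul_lt_mul_of_pos_right hK1 (pow_pos hH1 m)
  have E := hE M H K hcond hH1 hdvd
  have F := mom E hM hB1' hH1 hdvd hw
  have hY := mean_YT E hM hB1' hH1 hdvd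
  have Dt := dat (s := s) h g b hC hW hZ hw
  have h1 := longA F (by positivity) hY Dt hcb0
    ((bx ((Fin k × Mono (r + 4) s) × Fin d) B).filter fun a => ¬ ND h g q b a ≠ 0)
    (fun a ha haZ T => by
      rw [hcb]
      apply hB1 B hBB1 a ha
      by_contra h5
      exact haZ (Finset.mem_filter.2 ⟨ha, not_not.2 h5⟩))
    hB1' (by rw [← hL0]; exact hL) hT₀
  rw [← hcl] at h1
  have h2 := rare (s := s) h g q b hN hq B hB1'
  rw [← hcz] at h2
  obtain ⟨X, hX⟩ : ∃ X : ℝ, X = ((box (r + 4) k s d B).card : ℝ) := ⟨_, rfl⟩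
  have hX' : X = ((bx ((Fin k × Mono (r + 4) s) × Fin d) B).card : ℝ) := hX
  rw [← hX'] at h1 h2
  have hX0 : 0 ≤ X := by rw [hX]; exact Nat.cast_nonneg _
  rw [← hX]
  have hsub : ((box (r + 4) k s d B).filter fun a => ∃ T : ℕ, T₀ ≤ T ∧ B < T ^ 2 ∧
        s ^ m * T ^ 2 < (8 * B) ^ m ∧ Real.log T ^ 3 / Real.sqrt T <
          |average w T h (form g (coord b a)) - expectAverage w T h g|) ⊆
      ((bx ((Fin k × Mono (r + 4) s) × Fin d) B).filter fun a => ∃ T : ℕ, T₀ ≤ T ∧ T ≤ K ∧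
        B < T ^ 2 ∧ Real.sqrt T * Real.log T ^ 3 <
          |∑ p ∈ PR T, Real.log p * tt w b h g p a|) := by
    intro a ha
    obtain ⟨ha1, T, h3, h4, h5, h6⟩ := Finset.mem_filter.1 ha
    refine Finset.mem_filter.2 ⟨ha1, T, h3, hK2 T h5, h4, ?_⟩
    have hT2 : 2 ≤ T := hT₀.trans h3
    have hTp : (0 : ℝ) < T := by exact_mod_cast (by omega : 0 < T)
    have hs0 : 0 < Real.sqrt T := Real.sqrt_pos.2 hTp
    rw [average_sub, abs_div, abs_of_pos hTp, div_lt_div_iff₀ hs0 hTp] at h6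
    have h7 : (T : ℝ) = Real.sqrt T * Real.sqrt T := (Real.mul_self_sqrt hTp.le).symm
    have h8 : Real.log T ^ 3 * (Real.sqrt T * Real.sqrt T) <
        |∑ p ∈ PR T, Real.log p * tt w b h g p a| * Real.sqrt T := by
      rw [← h7]
      exact h6
    have h9 : (Real.sqrt T * Real.log T ^ 3) * Real.sqrt T <
        |∑ p ∈ PR T, Real.log p * tt w b h g p a| * Real.sqrt T := by
      calc _ = Real.log T ^ 3 * (Real.sqrt T * Real.sqrt T) := by ring
        _ < _ := h8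
    exact lt_of_mul_lt_mul_right h9 hs0.le
  refine (Nat.cast_le.2 (Finset.card_le_card hsub)).trans (h1.trans ?_)
  have h3 : cz / B * X ≤ cz * (4 * m) / Real.log T₀ * X := by
    apply mul_le_mul_of_nonneg_right _ hX0
    rw [div_le_div_iff₀ hB0 hlT, mul_assoc]
    apply mul_le_mul_of_nonneg_left _ hcz0
    have h5 : T₀ ^ 2 ≤ (8 * B) ^ m := by
      have h6 : 1 ≤ s ^ m := Nat.one_le_pow _ _ hs
      calc T₀ ^ 2 ≤ K ^ 2 := Nat.pow_le_pow_left hTK 2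
        _ ≤ s ^ m * K ^ 2 := Nat.le_mul_of_pos_left _ (by omega)
        _ ≤ _ := hK1.le
    have h6 : (T₀ : ℝ) ^ 2 ≤ (8 * (B : ℝ)) ^ m := by exact_mod_cast h5
    have h7 := Real.log_le_log (by positivity) h6
    rw [Real.log_pow, Real.log_pow] at h7
    have h8 : Real.log (8 * (B : ℝ)) ≤ 8 * B :=
      (Real.log_le_sub_one_of_pos (by positivity)).trans (by linarith)
    have h9 : (m : ℝ) * Real.log (8 * (B : ℝ)) ≤ m * (8 * B) :=
      mul_le_mul_of_nonneg_left h8 (Nat.cast_nonneg _)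
    push_cast at h7
    linarith
  have h4 : cz * (4 * m) / Real.log T₀ * X + cl / Real.log T₀ * X =
      (cz * (4 * m) + cl) / Real.log T₀ * X := by ring
  rw [← h4]
  exact add_le_add (h2.trans h3) le_rfl

open Classical in
/-- Both ranges, from the moment estimates. -/
theorem main_of [IsDomain R] (b : Module.Basis (Fin d) ℤ R)
    {h : Fin c → MvPolynomial (Fin (r + 4)) R}
    {g : Fin k → MvPolynomial (Fin (r + 4)) R} {δ : Fin c → ℕ}
    (hh : ∀ i, (h i).IsHomogeneous (δ i)) {e : ℕ} (hg : ∀ i, (g i).IsHomogeneous e)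
    (hs : 1 ≤ s) {C₀ : ℝ}
    (hW : ∀ p : ℕ, p.Prime → ∀ φ : R →+* ZMod p,
      |points φ (Set.range h) - (p : ℝ) ^ 3| ≤ C₀ * (p : ℝ) ^ 2)
    (hZ : ∀ p : ℕ, p.Prime → ∀ φ : R →+* ZMod p,
      points φ (Set.range h ∪ Set.range g) ≤ C₀ * p)
    {ψ : R →+* ℂ} (hψ : Function.Injective ψ)
    {a₀ : Fin k × Mono (r + 4) s → R} (hS : SmoothSection ψ h (form g a₀))
    {m : ℕ} {C₁ C₂ : ℝ} (hE : ∀ (M H K : ℕ) [NeZero M], K ^ 2 * (s * H) ^ m < M ^ m → 1 ≤ H →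
      (∀ p, p.Prime → p ≤ K → p ∣ M) → Est (s := s) h g b M H K C₁ C₂) :
    ∃ (C : ℝ) (B₀ : ℕ), ∀ w : ∀ p : ℕ, (R →+* ZMod p) → ℝ, (∀ p φ, |w p φ| ≤ 1) →
      ∀ T₀ B : ℕ, 2 ≤ T₀ →
      (((box (r + 4) k s d B).filter fun a => ∃ T : ℕ, T₀ ≤ T ∧
        (T ^ 2 ≤ B ∨ (B₀ ≤ B ∧ s ^ m * T ^ 2 < (8 * B) ^ m)) ∧
        Real.log T ^ 3 / Real.sqrt T <
          |average w T h (form g (coord b a)) - expectAverage w T h g|).card : ℝ) ≤
        C / Real.log T₀ * (box (r + 4) k s d B).card := by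
  obtain ⟨C1, hC1⟩ := main (s := s) b hh hg hs hW hZ hψ hS
  obtain ⟨C2, B₀, hC20, hC2⟩ := long_of (s := s) (C₀ := |C₀|) (m := m) b hh hg hs (abs_nonneg _)
    (fun p hp φ => (hW p hp φ).trans (mul_le_mul_of_nonneg_right (le_abs_self _) (by positivity)))
    (fun p hp φ => (hZ p hp φ).trans (mul_le_mul_of_nonneg_right (le_abs_self _) (by positivity)))
    hψ hS hE
  refine ⟨C1 + C2, B₀, fun w hw T₀ B hT₀ => ?_⟩
  have hT0 : (2 : ℝ) ≤ T₀ := by exact_mod_cast hT₀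
  have hlT : 0 < Real.log T₀ := Real.log_pos (by linarith)
  have h1 := hC1 w hw T₀ B hT₀
  by_cases hB : B₀ ≤ B
  · have h2 := hC2 w hw T₀ B hT₀ hB
    have hsub : ((box (r + 4) k s d B).filter fun a => ∃ T : ℕ, T₀ ≤ T ∧
        (T ^ 2 ≤ B ∨ (B₀ ≤ B ∧ s ^ m * T ^ 2 < (8 * B) ^ m)) ∧
        Real.log T ^ 3 / Real.sqrt T <
          |average w T h (form g (coord b a)) - expectAverage w T h g|) ⊆
        ((box (r + 4) k s d B).filter fun a => ∃ T : ℕ, T₀ ≤ T ∧ T ^ 2 ≤ B ∧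
        Real.log T ^ 3 / Real.sqrt T <
          |average w T h (form g (coord b a)) - expectAverage w T h g|) ∪
        ((box (r + 4) k s d B).filter fun a => ∃ T : ℕ, T₀ ≤ T ∧ B < T ^ 2 ∧
        s ^ m * T ^ 2 < (8 * B) ^ m ∧ Real.log T ^ 3 / Real.sqrt T <
          |average w T h (form g (coord b a)) - expectAverage w T h g|) := by
      intro a ha
      obtain ⟨ha1, T, h3, h4, h5⟩ := Finset.mem_filter.1 ha
      rw [Finset.mem_union]
      by_cases h6 : T ^ 2 ≤ B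
      · exact Or.inl (Finset.mem_filter.2 ⟨ha1, T, h3, h6, h5⟩)
      · refine Or.inr (Finset.mem_filter.2 ⟨ha1, T, h3, not_le.1 h6, ?_, h5⟩)
        rcases h4 with h4 | h4
        · exact absurd h4 h6
        · exact h4.2
    have h3 := (Finset.card_le_card hsub).trans (Finset.card_union_le _ _)
    have h4 : (((box (r + 4) k s d B).filter fun a => ∃ T : ℕ, T₀ ≤ T ∧
        (T ^ 2 ≤ B ∨ (B₀ ≤ B ∧ s ^ m * T ^ 2 < (8 * B) ^ m)) ∧
        Real.log T ^ 3 / Real.sqrt T <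
          |average w T h (form g (coord b a)) - expectAverage w T h g|).card : ℝ) ≤
        (((box (r + 4) k s d B).filter fun a => ∃ T : ℕ, T₀ ≤ T ∧ T ^ 2 ≤ B ∧
        Real.log T ^ 3 / Real.sqrt T <
          |average w T h (form g (coord b a)) - expectAverage w T h g|).card : ℝ) +
        (((box (r + 4) k s d B).filter fun a => ∃ T : ℕ, T₀ ≤ T ∧ B < T ^ 2 ∧
        s ^ m * T ^ 2 < (8 * B) ^ m ∧ Real.log T ^ 3 / Real.sqrt T <
          |average w T h (form g (coord b a)) - expectAverage w T h g|).card : ℝ) := by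
      exact_mod_cast h3
    refine h4.trans ((add_le_add h1 h2).trans (le_of_eq ?_))
    ring
  · have hsub : ((box (r + 4) k s d B).filter fun a => ∃ T : ℕ, T₀ ≤ T ∧
        (T ^ 2 ≤ B ∨ (B₀ ≤ B ∧ s ^ m * T ^ 2 < (8 * B) ^ m)) ∧
        Real.log T ^ 3 / Real.sqrt T <
          |average w T h (form g (coord b a)) - expectAverage w T h g|) ⊆
        ((box (r + 4) k s d B).filter fun a => ∃ T : ℕ, T₀ ≤ T ∧ T ^ 2 ≤ B ∧
        Real.log T ^ 3 / Real.sqrt T <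
          |average w T h (form g (coord b a)) - expectAverage w T h g|) := by
      intro a ha
      obtain ⟨ha1, T, h3, h4, h5⟩ := Finset.mem_filter.1 ha
      refine Finset.mem_filter.2 ⟨ha1, T, h3, ?_, h5⟩
      rcases h4 with h4 | h4
      · exact h4
      · exact absurd h4.1 hB
    refine (Nat.cast_le.2 (Finset.card_le_card hsub)).trans (h1.trans ?_)
    apply mul_le_mul_of_nonneg_right _ (Nat.cast_nonneg _)
    exact div_le_div_of_nonneg_right (by linarith) hlT.le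

end Main

end Pool.Agent.Helper29.LG
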